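import Mathlib
import Pool.Agent.H15Z.SB.Main

set_option autoImplicit false

namespace Pool.Agent.Results.MP_1d2509_nt.AEvenH

open Pool.Agent.H15Z.SB

/-- For every `0 ≤ α < 1` and every even `h ≥ 2`, every `α`-strong `B_h` set `S` of positive
integers has `liminf S(n) / n^((1-α)/h) = 0`: for each `c > 0` there are arbitrarily large `n`
with `S(n) < c n^((1-α)/h)`. -/
theorem result (α : ℝ) (hα0 : 0 ≤ α) (hα1 : α < 1) (h : ℕ) (h2 : 2 ≤ h) (heven : Even h)
    (S : Set ℕ) (_hpos : 0 ∉ S) (hS : IsStrongBh α h S) (c : ℝ) (hc : 0 < c) :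
    ∃ᶠ n : ℕ in Filter.atTop, (cnt S n : ℝ) < c * (n : ℝ) ^ ((1 - α) / (h : ℝ)) := by
  obtain ⟨k, rfl⟩ := heven
  rw [← two_mul] at *
  exact main hα0 hα1 (by omega) hS c hc

end Pool.Agent.Results.MP_1d2509_nt.AEvenH
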